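import Pool.Agent.H77.TrsE

namespace Pool.Agent.Results.MP_f10232_lc.Undecidable

open Pool.Agent.H77.Trs

theorem result :
    (¬ ∃ D : List ℕ × List ℕ × List ℕ → Bool, Computable D ∧
      ∀ (σ : List ℕ) (l r : Tm σ), LinearRule l r →
        (D (σ, l.enc, r.enc) = true ↔ Terminating l r)) ∧
    ¬ ∃ D : List ℕ × List ℕ → Bool, Computable D ∧
      ∀ l r : Tm [2, 2, 1, 0, 0], LinearRule l r →
        (D (l.enc, r.enc) = true ↔ Terminating l r) :=
  ⟨fun ⟨D, h1, h2⟩ => main ⟨fun y => D (sg, y), h1.comp ((Computable.const _).pair Computable.id),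
    h2 sg⟩, main⟩

end Pool.Agent.Results.MP_f10232_lc.Undecidable
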